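import Pool.Agent.H73.CZ.RedA
import Pool.Agent.H71.KP.Cassels

/-!
# Project CZ, block RED: descent of a relation to a subring of `ℤ_[p]`

`exists_subring` gives a finite set `S0` of `k`; the subring `A` generated by `S0` and `1 / N!` embeds in `ℤ_[p]` for some prime
`p` (Cassels, `exists_padic_embedding`), and `p > N` because `N!` is a unit of `A`.
-/

set_option autoImplicit false

open Matrix

universe u u' v w

namespace Pool.Agent.H73.CZ

open Pool.Agent.H71.FQ
open Pool.Agent.H16.FU (HnK1 sy1 assembly1 hn1 hn1_sy1 map_assembly1)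
open Pool.Agent.H95.WH (K1 K1.mk K1.unit K1.map K1.map_unit FamSub FinSub)

private theorem finiteType_closure {k : Type u} [CommRing k] (T : Finset k) :
    Algebra.FiniteType ℤ (Subring.closure (T : Set k)) := by
  have h1 : Algebra.FiniteType ℤ (Algebra.adjoin ℤ (T : Set k)) :=
    (Subalgebra.fg_iff_finiteType _).1 (Subalgebra.fg_adjoin_finset T)
  have h2 : ∀ x, x ∈ Algebra.adjoin ℤ (T : Set k) ↔ x ∈ Subring.closure (T : Set k) := by
    intro x
    rw [Algebra.adjoin_int]
    exact mem_subalgebraOfSubring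
  let e : Algebra.adjoin ℤ (T : Set k) →+* Subring.closure (T : Set k) :=
    { toFun := fun x => ⟨x, (h2 x).1 x.2⟩
      map_one' := rfl
      map_mul' := fun _ _ => rfl
      map_zero' := rfl
      map_add' := fun _ _ => rfl }
  refine Algebra.FiniteType.of_surjective e.toIntAlgHom ?_
  rintro ⟨x, hx⟩
  exact ⟨⟨x, (h2 x).2 hx⟩, rfl⟩

/-- **A relation over a field of characteristic zero comes from a subring of `ℤ_[p]`, `p > N`.** -/
theorem descent {k : Type u} [Field k] [CharZero k] {G : Type v} [Group G] {n : ℕ} (N r : ℕ)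
    (C : Fin r → Subgroup G) (hC : ∀ i, Finite (C i)) (u : ∀ i, (MonoidAlgebra k (C i))ˣ)
    (z : ∀ i, HG (Subgroup.centralizer (C i : Set G)) n) (M : ℤ) (_hM : M ≠ 0)
    (h : M • assembly1 k n G (∑ i, sy1 ⟨C i, hC i⟩ (K1.unit (u i)) (z i)) = 0) :
    ∃ (p : ℕ) (_ : Fact p.Prime) (S : Subring k) (φ : S →+* ℤ_[p])
      (v : ∀ i, (MonoidAlgebra S (C i))ˣ), N < p ∧ Function.Injective φ ∧
      (∀ i, MonoidAlgebra.mapRingHom (C i) S.subtype (v i : MonoidAlgebra S (C i)) = u i) ∧
      M • assembly1 S n G (∑ i, sy1 ⟨C i, hC i⟩ (K1.unit (v i)) (z i)) = 0 := by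
  classical
  obtain ⟨S0, hS0⟩ := exists_subring C hC u z M h
  obtain ⟨T, hT⟩ : ∃ T : Finset k, T = insert ((N.factorial : k)⁻¹) S0 := ⟨_, rfl⟩
  have hft := finiteType_closure T
  obtain ⟨p, hp, φ, hφ⟩ := Pool.Agent.H71.KP.exists_padic_embedding (Subring.closure (T : Set k))
  obtain ⟨v, hv, h2⟩ := hS0 (Subring.closure (T : Set k)) fun s hs =>
    Subring.subset_closure (by rw [hT]; exact Finset.mem_coe.2 (Finset.mem_insert_of_mem hs))
  refine ⟨p, hp, Subring.closure (T : Set k), φ, v, ?_, hφ, hv, h2⟩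
  by_contra hlt
  have hle : p ≤ N := not_lt.1 hlt
  obtain ⟨a, ha⟩ : ∃ a : Subring.closure (T : Set k), (a : k) = (N.factorial : k)⁻¹ :=
    ⟨⟨(N.factorial : k)⁻¹, Subring.subset_closure (by
      rw [hT]
      exact Finset.mem_coe.2 (Finset.mem_insert_self _ _))⟩, rfl⟩
  have h3 : (N.factorial : Subring.closure (T : Set k)) * a = 1 := by
    apply Subtype.ext
    push_cast
    rw [ha]
    exact mul_inv_cancel₀ (Nat.cast_ne_zero.2 (Nat.factorial_ne_zero N))
  have h4 : (N.factorial : ℤ_[p]) * φ a = 1 := by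
    rw [← map_natCast φ, ← map_mul, h3, map_one]
  have h5 : (p : ℤ_[p]) ∣ 1 := by
    rw [← h4]
    exact dvd_mul_of_dvd_left (Nat.cast_dvd_cast ((Nat.Prime.dvd_factorial hp.out).2 hle)) _
  exact PadicInt.prime_p.not_isUnit (isUnit_of_dvd_one h5)

end Pool.Agent.H73.CZ
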