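import Pool.Agent.H16.FU.Dir
import Pool.Agent.H71.FU1.LocF1

/-!
# Project CZ, block RED: relations over a field come from finitely generated subrings

`exists_units` : finitely many units of the group rings `k[C_i]` come from all subrings of `k` which contain a finite
set.
`exists_subring` : a relation `m • ∑ [C_i, u_i, z_i] = 0` in `KQ (k[G])` holds over all subrings of `k` which contain a
finite set.
-/

set_option autoImplicit false

open Matrix

universe u u' v w

namespace Pool.Agent.H73.CZ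

open Pool.Agent.H71.FQ
open Pool.Agent.H16.FU (HnK1 sy1 assembly1 hn1 hn1_sy1 map_assembly1)
open Pool.Agent.H95.WH (K1 K1.mk K1.unit K1.map K1.map_unit FamSub FinSub)

section

variable {k : Type u} [Ring k]

theorem mem_range_mapM {R : Type u'} [Ring R] (f : R →+* k) (M : Type*) [Monoid M]
    (a : MonoidAlgebra k M) (h : ∀ m, a.coeff m ∈ Set.range f) :
    a ∈ Set.range (MonoidAlgebra.mapRingHom M f) := by
  classical
  choose c hc using h
  refine ⟨∑ m ∈ a.coeff.support, MonoidAlgebra.single m (c m), ?_⟩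
  rw [map_sum]
  simp only [MonoidAlgebra.mapRingHom_single, hc]
  exact MonoidAlgebra.sum_coeff_single a

open Classical in
/-- the coefficients of a finite set -/
noncomputable def cfs (M : Type*) [Monoid M] (S : Finset (MonoidAlgebra k M)) : Finset k :=
  S.biUnion fun a => a.coeff.support.image a.coeff

theorem mem_cfs {R : Type u'} [Ring R] (f : R →+* k) (M : Type*) [Monoid M]
    (S : Finset (MonoidAlgebra k M)) (h : ∀ s ∈ cfs M S, s ∈ Set.range f) (a : MonoidAlgebra k M)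
    (ha : a ∈ S) : a ∈ Set.range (MonoidAlgebra.mapRingHom M f) := by
  classical
  apply mem_range_mapM f M a
  intro m
  by_cases hm : a.coeff m = 0
  · rw [hm]
    exact ⟨0, map_zero f⟩
  · refine h _ (Finset.mem_biUnion.2 ⟨a, ha, Finset.mem_image.2
      ⟨m, Finsupp.mem_support_iff.2 hm, rfl⟩⟩)

theorem exists_unit {C : Type w} [Group C] (u : (MonoidAlgebra k C)ˣ) :
    ∃ S : Finset k, ∀ R : Subring k, (∀ s ∈ S, s ∈ R) → ∃ v : (MonoidAlgebra R C)ˣ,
      MonoidAlgebra.mapRingHom C R.subtype (v : MonoidAlgebra R C) = u := by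
  classical
  refine ⟨cfs C {(u : MonoidAlgebra k C), ((u⁻¹ : (MonoidAlgebra k C)ˣ) : MonoidAlgebra k C)}, ?_⟩
  intro R hR
  have h1 : ∀ s ∈ cfs C {(u : MonoidAlgebra k C), ((u⁻¹ : (MonoidAlgebra k C)ˣ) :
      MonoidAlgebra k C)}, s ∈ Set.range R.subtype := fun s hs => ⟨⟨s, hR s hs⟩, rfl⟩
  obtain ⟨a, ha⟩ := mem_cfs R.subtype C _ h1 (u : MonoidAlgebra k C) (Finset.mem_insert_self _ _)
  obtain ⟨b, hb⟩ := mem_cfs R.subtype C _ h1 ((u⁻¹ : (MonoidAlgebra k C)ˣ) : MonoidAlgebra k C)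
    (Finset.mem_insert_of_mem (Finset.mem_singleton_self _))
  have hinj := mapRingHom_injective' (φ := R.subtype) Subtype.val_injective C
  refine ⟨⟨a, b, hinj ?_, hinj ?_⟩, ha⟩
  · rw [map_mul, ha, hb, Units.mul_inv, map_one]
  · rw [map_mul, ha, hb, Units.inv_mul, map_one]

theorem exists_units {r : ℕ} {C : Fin r → Type w} [∀ i, Group (C i)]
    (u : ∀ i, (MonoidAlgebra k (C i))ˣ) :
    ∃ S : Finset k, ∀ R : Subring k, (∀ s ∈ S, s ∈ R) → ∃ v : ∀ i, (MonoidAlgebra R (C i))ˣ,
      ∀ i, MonoidAlgebra.mapRingHom (C i) R.subtype (v i : MonoidAlgebra R (C i)) = u i := by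
  classical
  choose S hS using fun i => exists_unit (u i)
  refine ⟨Finset.univ.biUnion S, ?_⟩
  intro R hR
  choose v hv using fun i => hS i R fun s hs =>
    hR s (Finset.mem_biUnion.2 ⟨i, Finset.mem_univ _, hs⟩)
  exact ⟨v, hv⟩

end

section

variable {k : Type u} [Ring k] {G : Type v} [Group G] {n : ℕ}

/-- change of the coefficients of a symbol of a unit -/
theorem hn1_unit {k' : Type u'} [Ring k'] (θ : k →+* k') (F : FamSub G FinSub)
    (v : (MonoidAlgebra k F.1)ˣ) (u : (MonoidAlgebra k' F.1)ˣ)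
    (h : MonoidAlgebra.mapRingHom F.1 θ (v : MonoidAlgebra k F.1) = u)
    (z : HG (Subgroup.centralizer (F.1 : Set G)) n) :
    hn1 θ (sy1 F (K1.unit v) z) = sy1 F (K1.unit u) z := by
  rw [hn1_sy1, K1.map_unit]
  congr 2
  exact Units.ext h

theorem hn1_units {k' : Type u'} [Ring k'] (θ : k →+* k') {r : ℕ} (C : Fin r → Subgroup G)
    (hC : ∀ i, Finite (C i)) (v : ∀ i, (MonoidAlgebra k (C i))ˣ)
    (u : ∀ i, (MonoidAlgebra k' (C i))ˣ)
    (h : ∀ i, MonoidAlgebra.mapRingHom (C i) θ (v i : MonoidAlgebra k (C i)) = u i)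
    (z : ∀ i, HG (Subgroup.centralizer (C i : Set G)) n) :
    hn1 θ (∑ i, sy1 ⟨C i, hC i⟩ (K1.unit (v i)) (z i)) =
      ∑ i, sy1 ⟨C i, hC i⟩ (K1.unit (u i)) (z i) := by
  rw [map_sum]
  exact Finset.sum_congr rfl fun i _ => hn1_unit θ ⟨C i, hC i⟩ (v i) (u i) (h i) (z i)

/-- **A relation over `k` holds over the subrings which contain a finite set.** -/
theorem exists_subring {r : ℕ} (C : Fin r → Subgroup G) (hC : ∀ i, Finite (C i))
    (u : ∀ i, (MonoidAlgebra k (C i))ˣ) (z : ∀ i, HG (Subgroup.centralizer (C i : Set G)) n)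
    (m : ℤ) (hm : m • assembly1 k n G (∑ i, sy1 ⟨C i, hC i⟩ (K1.unit (u i)) (z i)) = 0) :
    ∃ S : Finset k, ∀ R : Subring k, (∀ s ∈ S, s ∈ R) → ∃ v : ∀ i, (MonoidAlgebra R (C i))ˣ,
      (∀ i, MonoidAlgebra.mapRingHom (C i) R.subtype (v i : MonoidAlgebra R (C i)) = u i) ∧
      m • assembly1 R n G (∑ i, sy1 ⟨C i, hC i⟩ (K1.unit (v i)) (z i)) = 0 := by
  classical
  obtain ⟨S1, hS1⟩ := exists_units u
  obtain ⟨v1, hv1⟩ := hS1 (Subring.closure (S1 : Set k)) fun s hs => Subring.subset_closure hs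
  have h1 : KQ.map (MonoidAlgebra.mapRingHom G (Subring.closure (S1 : Set k)).subtype)
      (m • assembly1 (Subring.closure (S1 : Set k)) n G
        (∑ i, sy1 ⟨C i, hC i⟩ (K1.unit (v1 i)) (z i))) = 0 := by
    rw [map_zsmul, map_assembly1, hn1_units _ C hC v1 u hv1 z, hm]
  obtain ⟨T, hT⟩ := KQ.exists_zero.{max u v, max u v, max u v} _ _ h1
  refine ⟨S1 ∪ cfs G T, ?_⟩
  intro R hR
  have hle : Subring.closure (S1 : Set k) ≤ R := by
    rw [Subring.closure_le]
    intro s hs
    exact hR s (Finset.mem_union_left _ hs)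
  have hcomp : R.subtype.comp (Subring.inclusion hle) =
      (Subring.closure (S1 : Set k)).subtype := rfl
  have h2 : KQ.map (MonoidAlgebra.mapRingHom G (Subring.inclusion hle))
      (m • assembly1 (Subring.closure (S1 : Set k)) n G
        (∑ i, sy1 ⟨C i, hC i⟩ (K1.unit (v1 i)) (z i))) = 0 := by
    refine hT (MonoidAlgebra.mapRingHom G R.subtype) _
      (mapRingHom_injective' Subtype.val_injective G) ?_ ?_
    · rw [← hcomp, MonoidAlgebra.mapRingHom_comp]
    · exact mem_cfs R.subtype G T fun s hs =>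
        ⟨⟨s, hR s (Finset.mem_union_right _ hs)⟩, rfl⟩
  refine ⟨fun i => Units.map (MonoidAlgebra.mapRingHom (C i) (Subring.inclusion hle)).toMonoidHom
    (v1 i), ?_, ?_⟩
  · intro i
    rw [← hv1 i, ← hcomp, MonoidAlgebra.mapRingHom_comp]
    rfl
  · rw [map_zsmul, map_assembly1] at h2
    rw [← hn1_units (Subring.inclusion hle) C hC v1 _ (fun i => rfl) z]
    exact h2

end

end Pool.Agent.H73.CZ
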